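import Pool.Agent.NPC.Stmts

set_option autoImplicit false

open MeasureTheory Set Topology Pointwise

namespace Pool.Agent.NPC.H8

open Pool.Agent.LSG Pool.Agent.NPC

/-- **GNR** -/
theorem gnr (hmup : MupStmt) : GnrStmt := by
  intro K _ _ _ _ _ _ _ _ G p q c S hS hSp
  obtain ⟨-, -, h1, -, hfib, -, -⟩ := hmup K
  have hpow : ∀ᵐ x ∂(mu K), ∀ j : ℤ, Inf K j → x ^ j ∉ S := by
    rw [ae_all_iff]
    intro j
    by_cases hj : Inf K j
    · have hz : ∀ s : K, mu K {y | y ^ j = s} = 0 := by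
        intro s
        have h := hfib 1 j (by rw [one_mul]; exact hj) s
        rwa [h1] at h
      have hn : ∀ᵐ x ∂(mu K), ∀ s ∈ (S : Set K), ¬ (x ^ j = s) := by
        rw [ae_ball_iff hS]
        intro s _
        rw [ae_iff]
        have : {a : K | ¬ ¬ (a ^ j = s)} = {y | y ^ j = s} := by
          ext a
          simp
        rw [this]
        exact hz s
      filter_upwards [hn] with x hx _ hmem
      exact hx _ hmem rfl
    · exact Filter.Eventually.of_forall fun x h => absurd h hj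
  have hsup : ∀ᵐ x ∂(mu K), ∀ k : ℤ, Inf K k → ∀ s ∈ (S : Set K), ∀ (y : G) (i : Fin q)
      (a : G × Fin p), (y : K) = x ^ k * s → c (y, i) a ≠ 0 →
      ∃ j : ℤ, (a.1 : K) * ((y : K) ^ j)⁻¹ ∈ (S : Set K) := by
    rw [ae_all_iff]
    intro k
    by_cases hk : Inf K k
    · have h2 : ∀ᵐ x ∂(mu K), ∀ s ∈ (S : Set K), ∀ (y : G) (i : Fin q)
          (a : G × Fin p), (y : K) = x ^ k * s → c (y, i) a ≠ 0 →
          ∃ j : ℤ, (a.1 : K) * ((y : K) ^ j)⁻¹ ∈ (S : Set K) := by
        rw [ae_ball_iff hS]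
        intro s hs
        exact hSp.2 k hk s hs
      filter_upwards [h2] with x hx _
      exact hx
    · exact Filter.Eventually.of_forall fun x h => absurd h hk
  filter_upwards [hpow, hsup] with x hx1 hx2
  exact ⟨hx1, fun k hk s hs y i a hy hc => hx2 k hk s hs y i a hy hc⟩

end Pool.Agent.NPC.H8
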